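import Pool.Agent.H63.WT.TA
import Pool.Agent.H86.N6D.WIT

/-!
# Quaternary forms with square determinant
-/

set_option autoImplicit false

open Matrix Pool.Agent.H63.WT

namespace Pool.Agent.H1.WTX

/-- symmetric matrices with the same quadratic form -/
theorem symm_ext {F : Type} [Field F] (h2 : (2 : F) ≠ 0) {n : ℕ} {A B : Matrix (Fin n) (Fin n) F}
    (hA : A.transpose = A) (hB : B.transpose = B)
    (h : ∀ z : Fin n → F, z ⬝ᵥ (A *ᵥ z) = z ⬝ᵥ (B *ᵥ z)) : A = B := by
  ext i j
  have key : ∀ C : Matrix (Fin n) (Fin n) F, C.transpose = C →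
      (Pi.single i 1 + Pi.single j 1 : Fin n → F) ⬝ᵥ (C *ᵥ (Pi.single i 1 + Pi.single j 1)) =
        C i i + C j j + 2 * C i j := by
    intro C hC
    have hij : C j i = C i j := congrFun (congrFun hC i) j
    rw [mulVec_add, add_dotProduct, dotProduct_add, dotProduct_add]
    simp only [mulVec_single_one, single_one_dotProduct, col_apply]
    rw [hij]
    ring
  have key1 : ∀ (C : Matrix (Fin n) (Fin n) F) (l : Fin n),
      (Pi.single l 1 : Fin n → F) ⬝ᵥ (C *ᵥ Pi.single l 1) = C l l := by
    intro C l
    simp only [mulVec_single_one, single_one_dotProduct, col_apply]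
  have h1 := h (Pi.single i 1 + Pi.single j 1)
  rw [key A hA, key B hB] at h1
  have h3 := h (Pi.single i 1)
  rw [key1, key1] at h3
  have h4 := h (Pi.single j 1)
  rw [key1, key1] at h4
  rw [h3, h4] at h1
  exact mul_left_cancel₀ h2 (add_left_cancel h1)

theorem pf_AN4 : T_AN4 := by
  intro F _ h2 ι _ _ A hc hA hsq
  constructor
  · rintro ⟨r, hr, b, hb, hb0⟩ han
    have hr2 : r = 2 := by omega
    subst hr2
    exact han (b 0) (hb.ne_zero 0) (hb0 0 0)
  · intro hiso
    by_contra hmet
    have e : Fin 4 ≃ ι := (Fintype.equivFinOfCardEq hc).symm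
    set G : Matrix (Fin 4) (Fin 4) F := A.submatrix e e with hG
    have hGt : G.transpose = G := by
      rw [hG, transpose_submatrix, hA.1]
    have hGd : G.det = A.det := det_submatrix_equiv_self e A
    have hform : ∀ x y : Fin 4 → F,
        (x ∘ e.symm) ⬝ᵥ (A *ᵥ (y ∘ e.symm)) = x ⬝ᵥ (G *ᵥ y) := by
      intro x y
      have h1 : A *ᵥ (y ∘ e.symm) = (G *ᵥ y) ∘ e.symm := by
        rw [hG, submatrix_mulVec_equiv]
        funext i
        simp
      rw [h1]
      exact comp_equiv_dotProduct_comp_equiv x (G *ᵥ y) e.symm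
    have hAni : ¬ Pool.Agent.H28.N6.Ani G := by
      intro h
      apply hiso
      intro z hz hz0
      have h1 : (z ∘ e) ≠ 0 := by
        intro h3
        apply hz
        funext i
        have := congrFun h3 (e.symm i)
        simpa using this
      apply h (z ∘ e) h1
      have h3 := hform (z ∘ e) (z ∘ e)
      have h4 : (z ∘ e) ∘ e.symm = z := by
        funext i
        simp
      rw [h4] at h3
      exact h3.symm.trans hz0
    have hIso : ¬ Pool.Agent.H28.N6.IsoSp G 2 := by
      rintro ⟨W, hW, hW0⟩
      apply hmet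
      set bas := Module.finBasisOfFinrankEq F W hW with hbas
      refine ⟨2, by rw [hc], fun i => (bas i : Fin 4 → F) ∘ e.symm, ?_, ?_⟩
      · have h1 : LinearIndependent F fun i => (bas i : Fin 4 → F) :=
          bas.linearIndependent.map' W.subtype (Submodule.ker_subtype W)
        exact h1.map' (LinearEquiv.funCongrLeft F F e.symm).toLinearMap
          (LinearEquiv.ker _)
      · intro i j
        rw [hform]
        have hq : ∀ x : Fin 4 → F, x ∈ W → x ⬝ᵥ (G *ᵥ x) = 0 := fun x hx => hW0 x hx
        have h1 := hq _ (W.add_mem (bas i).2 (bas j).2)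
        rw [mulVec_add, add_dotProduct, dotProduct_add, dotProduct_add, hq _ (bas i).2,
          hq _ (bas j).2, Pool.Agent.H86.N6D.b_symm hGt (bas j : Fin 4 → F) (bas i : Fin 4 → F)]
          at h1
        have h3 : (2 : F) * ((bas i : Fin 4 → F) ⬝ᵥ (G *ᵥ (bas j : Fin 4 → F))) = 0 := by
          linear_combination h1
        exact (mul_eq_zero.1 h3).resolve_left h2
    obtain ⟨M, N, hM, hN, hNt, hq⟩ := Pool.Agent.H86.N6D.pf_WIT F h2 G hGt
      (by rw [hGd]; exact hA.2) hAni hIso
    -- the matrix of the decomposed form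
    set H : Matrix (Fin 4) (Fin 4) F :=
      !![0, 1 / 2, 0, 0; 1 / 2, 0, 0, 0; 0, 0, N 0 0, N 0 1; 0, 0, N 0 1, N 1 1] with hH
    have hN10 : N 1 0 = N 0 1 := congrFun (congrFun hNt 0) 1
    have hHt : H.transpose = H := by
      rw [hH]
      ext i j
      fin_cases i <;> fin_cases j <;> rfl
    have hMG : (M.transpose * G * M).transpose = M.transpose * G * M := by
      rw [transpose_mul, transpose_mul, transpose_transpose, hGt, Matrix.mul_assoc]
    have hEq : M.transpose * G * M = H := by
      apply symm_ext h2 hMG hHt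
      intro z
      have h1 : z ⬝ᵥ ((M.transpose * G * M) *ᵥ z) = Pool.Agent.H28.N6.qf G (M.mulVec z) := by
        rw [← mulVec_mulVec, ← mulVec_mulVec, dotProduct_mulVec, vecMul_transpose]
        rfl
      rw [h1, hq]
      simp only [hH, Pool.Agent.H28.N6.qf, mulVec, dotProduct, Fin.sum_univ_four,
        Fin.sum_univ_two, of_apply, cons_val', cons_val_zero, cons_val_one,
        cons_val_two, cons_val_three, empty_val', cons_val_fin_one, hN10]
      simp [Matrix.cons_val_two, Matrix.cons_val_three]
      ring_nf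
      simp only [inv_mul_cancel_right₀ h2, mul_inv_cancel_right₀ h2, inv_mul_cancel₀ h2]
    have hdet := congrArg Matrix.det hEq
    rw [det_mul, det_mul, det_transpose, hGd] at hdet
    have hHd : H.det = -(1 / 4) * (N 0 0 * N 1 1 - N 0 1 * N 0 1) := by
      rw [hH]
      simp only [det_succ_row_zero, Fin.sum_univ_succ]
      simp [Fin.succAbove]
      have h44 : (2 : F)⁻¹ * 2⁻¹ = 4⁻¹ := by
        rw [← mul_inv]
        norm_num
      rw [← h44]
      ring
    rw [hHd] at hdet
    obtain ⟨s, hs⟩ := hsq
    rw [hs] at hdet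
    -- `-det N` is a square
    have h4 : (4 : F) ≠ 0 := by
      have : (4 : F) = 2 * 2 := by norm_num
      rw [this]
      exact mul_ne_zero h2 h2
    set d : F := 2 * M.det * s with hd
    have hdd : d * d = N 0 1 * N 0 1 - N 0 0 * N 1 1 := by
      have h5 : 4 * (M.det * (s * s) * M.det) = 4 * (-(1 / 4) * (N 0 0 * N 1 1 - N 0 1 * N 0 1)) := by
        rw [hdet]
      have h6 : 4 * (-(1 / 4) * (N 0 0 * N 1 1 - N 0 1 * N 0 1)) =
          N 0 1 * N 0 1 - N 0 0 * N 1 1 := by
        field_simp
        ring
      rw [h6] at h5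
      rw [← h5, hd]
      ring
    have hqN : ∀ x y : F, Pool.Agent.H28.N6.qf N ![x, y] =
        N 0 0 * x * x + 2 * N 0 1 * x * y + N 1 1 * y * y := by
      intro x y
      simp only [Pool.Agent.H28.N6.qf, mulVec, dotProduct, Fin.sum_univ_two, cons_val_zero,
        cons_val_one, hN10]
      ring
    by_cases ha : N 0 0 = 0
    · apply hN ![1, 0]
      · intro h
        have := congrFun h 0
        simp at this
      · rw [hqN, ha]
        ring
    · apply hN ![-N 0 1 + d, N 0 0]
      · intro h
        have := congrFun h 1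
        exact ha this
      · rw [hqN]
        linear_combination N 0 0 * hdd

end Pool.Agent.H1.WTX
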