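import Pool.Agent.H63.WT.TA
import Mathlib.LinearAlgebra.LinearIndependent.BaseChange

/-!
# Base change of the Witt group
-/

set_option autoImplicit false

open Matrix Pool.Agent.H63.WT

namespace Pool.Agent.H1.WTX

theorem cls_reindex {F : Type} [Field F] (hCLS : T_CLS) (h2 : (2 : F) ≠ 0) {ι κ : Type}
    [Fintype ι] [DecidableEq ι] [Fintype κ] [DecidableEq κ] (e : ι ≃ κ) (A : Matrix ι ι F)
    (hA : SN A) : SN (reindex e e A) ∧ cls (reindex e e A) = cls A := by
  have h := (hCLS F h2).2.2.1 ι κ A ((1 : Matrix ι ι F).submatrix id e.symm)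
    ((1 : Matrix ι ι F).submatrix e.symm id) hA
  have h1 : (1 : Matrix ι ι F).submatrix id e.symm * (1 : Matrix ι ι F).submatrix e.symm id = 1 := by
    rw [submatrix_mul_equiv, Matrix.mul_one]
    rfl
  have h3 : (1 : Matrix ι ι F).submatrix e.symm id * (1 : Matrix ι ι F).submatrix id e.symm = 1 := by
    have := submatrix_mul_equiv (1 : Matrix ι ι F) (1 : Matrix ι ι F) e.symm (Equiv.refl ι) e.symm
    rw [Equiv.coe_refl] at this
    rw [this, Matrix.mul_one, submatrix_one_equiv]
  have h4 : ((1 : Matrix ι ι F).submatrix id e.symm)ᵀ * A *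
      (1 : Matrix ι ι F).submatrix id e.symm = reindex e e A := by
    rw [transpose_submatrix, transpose_one]
    have h5 : (1 : Matrix ι ι F).submatrix e.symm id * A = A.submatrix e.symm id := by
      have := submatrix_mul_equiv (1 : Matrix ι ι F) A e.symm (Equiv.refl ι) id
      rw [Equiv.coe_refl, submatrix_id_id] at this
      rw [this, Matrix.one_mul]
    rw [h5]
    have := submatrix_mul_equiv A (1 : Matrix ι ι F) e.symm (Equiv.refl ι) e.symm
    rw [Equiv.coe_refl] at this
    rw [this, Matrix.mul_one]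
    rfl
  rw [← h4]
  exact h h1 h3

theorem cls_mk {F : Type} [Field F] (hCLS : T_CLS) (h2 : (2 : F) ≠ 0) {ι : Type}
    [Fintype ι] [DecidableEq ι] (A : Matrix ι ι F) (hA : SN A) :
    ∃ h : SN (reindex (Fintype.equivFin ι) (Fintype.equivFin ι) A),
      cls A = QuotientAddGroup.mk' (AddSubgroup.closure (rel F))
        (FreeAbelianGroup.of ⟨_, _, h⟩) := by
  have h := (cls_reindex hCLS h2 (Fintype.equivFin ι) A hA).1
  refine ⟨h, ?_⟩
  unfold cls
  rw [dif_pos h]

theorem sn_map {F E ι : Type} [Field F] [Field E] [Fintype ι] [DecidableEq ι] (φ : F →+* E)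
    {A : Matrix ι ι F} (hA : SN A) : SN (A.map φ) := by
  refine ⟨hA.1.map φ, ?_⟩
  have h : (A.map φ).det = φ A.det := (RingHom.map_det φ A).symm
  rw [h]
  exact (map_ne_zero φ).2 hA.2

theorem met_map {F E ι : Type} [Field F] [Field E] [Fintype ι] (φ : F →+* E)
    {A : Matrix ι ι F} (hA : Met A) : Met (A.map φ) := by
  obtain ⟨r, hr, b, hb, hb0⟩ := hA
  refine ⟨r, hr, fun i => φ ∘ b i, ?_, ?_⟩
  · letI : Algebra F E := φ.toAlgebra
    exact linearIndependent_algebraMap_comp_iff.2 hb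
  · intro i j
    have h1 : (A.map φ) *ᵥ (φ ∘ b j) = φ ∘ (A *ᵥ b j) := by
      funext x
      simp only [mulVec, dotProduct, map_apply, Function.comp_apply, map_sum, map_mul]
    rw [h1]
    have h2 : (φ ∘ b i) ⬝ᵥ (φ ∘ (A *ᵥ b j)) = φ (b i ⬝ᵥ (A *ᵥ b j)) := by
      simp only [dotProduct, Function.comp_apply, map_sum, map_mul]
    rw [h2, hb0, map_zero]

theorem pf_BCH (hCLS : T_CLS) : T_BCH := by
  intro F E _ _ h2 φ
  have h2E : (2 : E) ≠ 0 := by
    have := (map_ne_zero φ).2 h2
    rwa [map_ofNat] at this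
  let g : FreeAbelianGroup (QF F) →+ WG E :=
    FreeAbelianGroup.lift fun a : QF F => cls (a.2.1.map φ)
  have hg : ∀ a : QF F, g (FreeAbelianGroup.of a) = cls (a.2.1.map φ) := fun a =>
    FreeAbelianGroup.lift_apply_of _ _
  have hker : AddSubgroup.closure (rel F) ≤ g.ker := by
    rw [AddSubgroup.closure_le]
    rintro x (⟨a, ha, rfl⟩ | ⟨a, b, c, h, hc, rfl⟩)
    · rw [SetLike.mem_coe, AddMonoidHom.mem_ker, hg]
      exact (hCLS E h2E).1 _ _ (sn_map φ a.2.2) (met_map φ ha)
    · rw [SetLike.mem_coe, AddMonoidHom.mem_ker, map_sub, map_sub, hg, hg, hg]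
      have e1 : cls (c.2.1.map φ) = cls ((reindex (finCongr h) (finCongr h) c.2.1).map φ) := by
        have := (cls_reindex hCLS h2E (finCongr h) (c.2.1.map φ) (sn_map φ c.2.2)).2
        rw [← this]
        rfl
      rw [e1, hc]
      have hA' := sn_map φ a.2.2
      have hB' := sn_map φ b.2.2
      have hAB : SN (fromBlocks (a.2.1.map φ) 0 0 (b.2.1.map φ)) := by
        refine ⟨IsSymm.fromBlocks hA'.1 (by rw [transpose_zero]) hB'.1, ?_⟩
        rw [det_fromBlocks_zero₂₁]
        exact mul_ne_zero hA'.2 hB'.2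
      have hsum := (hCLS E h2E).2.1 _ _ _ _ hA' hB'
      have e2 : (osum a.2.1 b.2.1).map φ = reindex finSumFinEquiv finSumFinEquiv
          (fromBlocks (a.2.1.map φ) 0 0 (b.2.1.map φ)) := by
        ext i j
        simp only [osum, map_apply, reindex_apply, submatrix_apply]
        rcases finSumFinEquiv.symm i with i | i <;> rcases finSumFinEquiv.symm j with j | j <;>
          simp
      rw [e2, (cls_reindex hCLS h2E finSumFinEquiv _ hAB).2, hsum]
      abel
  refine ⟨QuotientAddGroup.lift _ g hker, ?_⟩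
  intro ι _ _ A hA
  obtain ⟨h, h1⟩ := cls_mk hCLS h2 A hA
  rw [h1]
  have h3 : QuotientAddGroup.lift (AddSubgroup.closure (rel F)) g hker
      (QuotientAddGroup.mk' (AddSubgroup.closure (rel F)) (FreeAbelianGroup.of ⟨_, _, h⟩)) =
      g (FreeAbelianGroup.of ⟨_, _, h⟩) := rfl
  refine h3.trans ?_
  rw [hg]
  exact (cls_reindex hCLS h2E (Fintype.equivFin ι) (A.map φ) (sn_map φ hA)).2

end Pool.Agent.H1.WTX
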