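import Pool.Agent.H1.WTX.BCH

/-!
# Transfer of Witt classes
-/

set_option autoImplicit false

open Matrix Pool.Agent.H63.WT

namespace Pool.Agent.H1.WTX

section

variable {F E : Type} [Field F] [Field E] [Algebra F E] {d : ℕ} (s : E →ₗ[F] F)
  (b : Module.Basis (Fin d) F E) {ι κ : Type}

/-- coordinates -/
noncomputable def tv : (ι × Fin d → F) ≃ₗ[F] (ι → E) where
  toFun x i := b.equivFun.symm fun j => x (i, j)
  invFun X p := b.equivFun (X p.1) p.2
  map_add' x y := by
    funext i
    exact map_add b.equivFun.symm (fun j => x (i, j)) fun j => y (i, j)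
  map_smul' c x := by
    funext i
    exact map_smul b.equivFun.symm c fun j => x (i, j)
  left_inv x := by
    funext p
    exact congrFun (b.equivFun.apply_symm_apply fun j => x (p.1, j)) p.2
  right_inv X := by
    funext i
    exact b.equivFun.symm_apply_apply (X i)

theorem tv_apply (x : ι × Fin d → F) (i : ι) : tv b x i = ∑ j, x (i, j) • b j := by
  change b.equivFun.symm (fun j => x (i, j)) = _
  rw [Module.Basis.equivFun_symm_apply]

theorem form_eq [Fintype ι] (A : Matrix ι ι E) (x y : ι × Fin d → F) :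
    x ⬝ᵥ (trm s b A *ᵥ y) = s (tv b x ⬝ᵥ (A *ᵥ tv b y)) := by
  simp only [dotProduct, mulVec, trm, tv_apply, Fintype.sum_prod_type, Finset.mul_sum,
    Finset.sum_mul, map_sum]
  refine Finset.sum_congr rfl fun i _ => ?_
  rw [Finset.sum_comm]
  refine Finset.sum_congr rfl fun k _ => ?_
  rw [Finset.sum_comm]
  refine Finset.sum_congr rfl fun l _ => Finset.sum_congr rfl fun j _ => ?_
  have h : x (i, j) • b j * (A i k * y (k, l) • b l) =
      (x (i, j) * y (k, l)) • (A i k * (b j * b l)) := by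
    simp only [Algebra.smul_def, map_mul]
    ring
  rw [h, map_smul, smul_eq_mul]
  ring

theorem trm_symm [Fintype ι] {A : Matrix ι ι E} (hA : A.IsSymm) : (trm s b A).IsSymm := by
  ext x y
  have h : A y.1 x.1 = A x.1 y.1 := congrFun (congrFun hA x.1) y.1
  simp only [transpose_apply, trm]
  rw [h, mul_comm (b y.2)]

theorem trm_sn [Fintype ι] [DecidableEq ι] (hs : s ≠ 0) {A : Matrix ι ι E} (hA : SN A) :
    SN (trm s b A) := by
  refine ⟨trm_symm s b hA.1, fun h0 => ?_⟩
  obtain ⟨x, hx, hx0⟩ := Matrix.exists_mulVec_eq_zero_iff.2 h0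
  have h1 : A *ᵥ tv b x = 0 := by
    funext i
    by_contra hne
    apply hs
    ext e
    have h3 := form_eq s b A ((tv b).symm (Pi.single i (e / (A *ᵥ tv b x) i))) x
    rw [hx0, dotProduct_zero, LinearEquiv.apply_symm_apply, single_dotProduct,
      div_mul_cancel₀ _ hne] at h3
    rw [← h3]
    rfl
  have h3 : tv b x ≠ 0 := fun h => hx ((LinearEquiv.map_eq_zero_iff _).1 h)
  exact hA.2 (Matrix.exists_mulVec_eq_zero_iff.1 ⟨_, h3, h1⟩)

theorem trm_met [Fintype ι] {A : Matrix ι ι E} (hA : Met A) : Met (trm s b A) := by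
  obtain ⟨r, hr, v, hv, hv0⟩ := hA
  refine ⟨r * d, ?_, fun p => (tv b).symm (b (finProdFinEquiv.symm p).2 •
    v (finProdFinEquiv.symm p).1), ?_, ?_⟩
  · rw [Fintype.card_prod, hr, Fintype.card_fin, mul_assoc]
  · have h1 : LinearIndependent F fun p : Fin d × Fin r => b p.1 • v p.2 :=
      linearIndependent_smul b.linearIndependent hv
    have h3 := (h1.comp (fun p : Fin (r * d) => (finProdFinEquiv.symm p).swap)
      (Prod.swap_injective.comp finProdFinEquiv.symm.injective)).map' (tv b).symm.toLinearMap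
      (LinearEquiv.ker _)
    exact h3
  · intro p q
    rw [form_eq, LinearEquiv.apply_symm_apply, LinearEquiv.apply_symm_apply, mulVec_smul,
      smul_dotProduct, dotProduct_smul, hv0, smul_zero, smul_zero, map_zero]

theorem trm_reindex (e : ι ≃ κ) (A : Matrix ι ι E) :
    trm s b (reindex e e A) =
      reindex (e.prodCongr (Equiv.refl (Fin d))) (e.prodCongr (Equiv.refl (Fin d)))
        (trm s b A) := rfl

theorem trm_blocks (A : Matrix ι ι E) (B : Matrix κ κ E) :
    trm s b (fromBlocks A 0 0 B) =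
      reindex (Equiv.sumProdDistrib ι κ (Fin d)).symm (Equiv.sumProdDistrib ι κ (Fin d)).symm
        (fromBlocks (trm s b A) 0 0 (trm s b B)) := by
  ext ⟨x | x, i⟩ ⟨y | y, j⟩ <;> simp [trm]

end

theorem pf_TRH (hCLS : T_CLS) : T_TRH := by
  intro F E _ _ _ h2 d b s hs
  have h2E : (2 : E) ≠ 0 := by
    have := (map_ne_zero (algebraMap F E)).2 h2
    rwa [map_ofNat] at this
  let g : FreeAbelianGroup (QF E) →+ WG F :=
    FreeAbelianGroup.lift fun a : QF E => cls (trm s b a.2.1)
  have hg : ∀ a : QF E, g (FreeAbelianGroup.of a) = cls (trm s b a.2.1) := fun a =>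
    FreeAbelianGroup.lift_apply_of _ _
  have hre : ∀ (ι κ : Type) [Fintype ι] [DecidableEq ι] [Fintype κ] [DecidableEq κ]
      (e : ι ≃ κ) (A : Matrix ι ι E), SN A →
      cls (trm s b (reindex e e A)) = cls (trm s b A) := by
    intro ι κ _ _ _ _ e A hA
    rw [trm_reindex]
    exact (cls_reindex hCLS h2 _ _ (trm_sn s b hs hA)).2
  have hker : AddSubgroup.closure (rel E) ≤ g.ker := by
    rw [AddSubgroup.closure_le]
    rintro x (⟨a, ha, rfl⟩ | ⟨a, b', c, h, hc, rfl⟩)
    · rw [SetLike.mem_coe, AddMonoidHom.mem_ker, hg]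
      exact (hCLS F h2).1 _ _ (trm_sn s b hs a.2.2) (trm_met s b ha)
    · rw [SetLike.mem_coe, AddMonoidHom.mem_ker, map_sub, map_sub, hg, hg, hg]
      have hA := a.2.2
      have hB := b'.2.2
      have hAB : SN (fromBlocks a.2.1 0 0 b'.2.1) := by
        refine ⟨IsSymm.fromBlocks hA.1 (by rw [transpose_zero]) hB.1, ?_⟩
        rw [det_fromBlocks_zero₂₁]
        exact mul_ne_zero hA.2 hB.2
      have e1 : cls (trm s b c.2.1) = cls (trm s b (osum a.2.1 b'.2.1)) := by
        rw [← hc, hre _ _ (finCongr h) c.2.1 c.2.2]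
      have e2 : cls (trm s b (osum a.2.1 b'.2.1)) =
          cls (trm s b (fromBlocks a.2.1 0 0 b'.2.1)) := hre _ _ finSumFinEquiv _ hAB
      have hA' := trm_sn s b hs hA
      have hB' := trm_sn s b hs hB
      have hAB' : SN (fromBlocks (trm s b a.2.1) 0 0 (trm s b b'.2.1)) := by
        refine ⟨IsSymm.fromBlocks hA'.1 (by rw [transpose_zero]) hB'.1, ?_⟩
        rw [det_fromBlocks_zero₂₁]
        exact mul_ne_zero hA'.2 hB'.2
      rw [e1, e2, trm_blocks, (cls_reindex hCLS h2 _ _ hAB').2,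
        (hCLS F h2).2.1 _ _ _ _ hA' hB']
      abel
  refine ⟨QuotientAddGroup.lift _ g hker, ?_⟩
  intro ι _ _ A hA
  refine ⟨trm_sn s b hs hA, ?_⟩
  obtain ⟨h, h1⟩ := cls_mk hCLS h2E A hA
  rw [h1]
  have h3 : QuotientAddGroup.lift (AddSubgroup.closure (rel E)) g hker
      (QuotientAddGroup.mk' (AddSubgroup.closure (rel E)) (FreeAbelianGroup.of ⟨_, _, h⟩)) =
      g (FreeAbelianGroup.of ⟨_, _, h⟩) := rfl
  refine h3.trans ?_
  rw [hg]
  exact hre _ _ (Fintype.equivFin ι) A hA

end Pool.Agent.H1.WTX
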